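import Pool.Agent.P8H79.KR.Stm

set_option autoImplicit false

/-! PACKAGE B: the free Abelian topological group is a `k_ℝ`-space. -/

namespace Pool.Agent.P8H79.KR

open Topology Set Filter Pointwise

namespace PB

set_option linter.unusedSectionVars false

variable {Y : Type} [TopologicalSpace Y] {X : Set Y}

/-- the basic neighbourhoods of zero -/
def USet (X : Set Y) (E : ℕ → Set (Y × Y)) : Set (X →₀ ℤ) :=
  {g | ∃ s : Finset ℕ, ∃ x y : ℕ → X, (∀ i ∈ s, ((x i : Y), (y i : Y)) ∈ E i) ∧
    g = ∑ i ∈ s, (ι X (x i) - ι X (y i))}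

/-- the family of basic neighbourhoods -/
def fam (X : Set Y) : Set (Set (X →₀ ℤ)) :=
  {U | ∃ E : ℕ → Set (Y × Y), (∀ i, E i ∈ 𝓝ˢ (diagonal Y)) ∧ U = USet X E}

lemma USet_mono {E E' : ℕ → Set (Y × Y)} (h : ∀ i, E i ⊆ E' i) : USet X E ⊆ USet X E' := by
  rintro g ⟨s, x, y, h1, h2⟩
  exact ⟨s, x, y, fun i hi => h i (h1 i hi), h2⟩

lemma zero_mem_USet [Nonempty X] (E : ℕ → Set (Y × Y)) : (0 : X →₀ ℤ) ∈ USet X E :=
  ⟨∅, fun _ => Classical.arbitrary X, fun _ => Classical.arbitrary X, by simp, by simp⟩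

lemma USet_add {E : ℕ → Set (Y × Y)} :
    USet X (fun i => E (2 * i) ∩ E (2 * i + 1)) + USet X (fun i => E (2 * i) ∩ E (2 * i + 1)) ⊆
      USet X E := by
  classical
  rintro g ⟨g1, ⟨s1, x1, y1, h1, rfl⟩, g2, ⟨s2, x2, y2, h2, rfl⟩, rfl⟩
  refine ⟨s1.image (fun i => 2 * i) ∪ s2.image (fun i => 2 * i + 1),
    fun k => if k % 2 = 0 then x1 (k / 2) else x2 (k / 2),
    fun k => if k % 2 = 0 then y1 (k / 2) else y2 (k / 2), ?_, ?_⟩
  · intro i hi
    rw [Finset.mem_union, Finset.mem_image, Finset.mem_image] at hi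
    rcases hi with ⟨j, hj, rfl⟩ | ⟨j, hj, rfl⟩
    · have e1 : 2 * j % 2 = 0 := by omega
      have e2 : 2 * j / 2 = j := by omega
      simp only [e1, e2, if_true]
      exact (h1 j hj).1
    · have e1 : ¬ (2 * j + 1) % 2 = 0 := by omega
      have e2 : (2 * j + 1) / 2 = j := by omega
      simp only [e1, e2, if_false]
      exact (h2 j hj).2
  · rw [Finset.sum_union, Finset.sum_image, Finset.sum_image]
    · congr 1
      · refine Finset.sum_congr rfl fun j _ => ?_
        have e1 : 2 * j % 2 = 0 := by omega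
        have e2 : 2 * j / 2 = j := by omega
        simp only [e1, e2, if_true]
      · refine Finset.sum_congr rfl fun j _ => ?_
        have e1 : ¬ (2 * j + 1) % 2 = 0 := by omega
        have e2 : (2 * j + 1) / 2 = j := by omega
        simp only [e1, e2, if_false]
    · intro a _ b _ hab
      simp only at hab
      omega
    · intro a _ b _ hab
      simp only at hab
      omega
    · rw [Finset.disjoint_left]
      intro a ha hb
      rw [Finset.mem_image] at ha hb
      obtain ⟨i, _, rfl⟩ := ha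
      obtain ⟨j, _, hj⟩ := hb
      omega

lemma swap_mem {E : Set (Y × Y)} (hE : E ∈ 𝓝ˢ (diagonal Y)) :
    Prod.swap ⁻¹' E ∈ 𝓝ˢ (diagonal Y) := by
  rw [mem_nhdsSet_iff_forall] at hE ⊢
  rintro ⟨a, b⟩ hab
  rw [mem_diagonal_iff] at hab
  simp only at hab
  subst hab
  exact continuous_swap.continuousAt.preimage_mem_nhds (hE (a, a) rfl)

/-- the group filter basis -/
noncomputable def basis (X : Set Y) [Nonempty X] : AddGroupFilterBasis (X →₀ ℤ) :=
  addGroupFilterBasisOfComm (fam X)
    ⟨USet X fun _ => univ, fun _ => univ, fun _ => Filter.univ_mem, rfl⟩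
    (by
      rintro _ _ ⟨E, hE, rfl⟩ ⟨E', hE', rfl⟩
      refine ⟨USet X fun i => E i ∩ E' i, ⟨_, fun i => Filter.inter_mem (hE i) (hE' i), rfl⟩,
        subset_inter (USet_mono fun i => inter_subset_left)
          (USet_mono fun i => inter_subset_right)⟩)
    (by
      rintro _ ⟨E, _, rfl⟩
      exact zero_mem_USet E)
    (by
      rintro _ ⟨E, hE, rfl⟩
      exact ⟨_, ⟨_, fun i => Filter.inter_mem (hE _) (hE _), rfl⟩, USet_add⟩)
    (by
      rintro _ ⟨E, hE, rfl⟩
      refine ⟨USet X fun i => Prod.swap ⁻¹' E i, ⟨_, fun i => swap_mem (hE i), rfl⟩, ?_⟩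
      rintro g ⟨s, x, y, h1, rfl⟩
      refine ⟨s, y, x, fun i hi => h1 i hi, ?_⟩
      change -(∑ i ∈ s, (ι X (x i) - ι X (y i))) = _
      rw [← Finset.sum_neg_distrib]
      exact Finset.sum_congr rfl fun i _ => neg_sub _ _)

lemma continuous_ι [Nonempty X] : @Continuous _ _ _ (basis X).topology (ι X) := by
  letI := (basis X).topology
  rw [continuous_iff_continuousAt]
  intro x0
  rw [ContinuousAt, ((basis X).nhds_hasBasis (ι X x0)).tendsto_right_iff]
  rintro U ⟨E, hE, rfl⟩
  have h1 : E 0 ∈ 𝓝 ((x0 : Y), (x0 : Y)) := (mem_nhdsSet_iff_forall.1 (hE 0)) _ rfl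
  have h2 : Continuous fun x : X => ((x : Y), (x0 : Y)) :=
    continuous_subtype_val.prodMk continuous_const
  have h3 := h2.continuousAt.preimage_mem_nhds h1
  filter_upwards [h3] with x hx
  refine ⟨ι X x - ι X x0, ⟨{0}, fun _ => x, fun _ => x0, ?_, ?_⟩, by simp⟩
  · intro i hi
    rw [Finset.mem_singleton] at hi
    subst hi
    exact hx
  · simp

lemma USet_mem_nhds [Nonempty X] (T : TopologicalSpace (X →₀ ℤ))
    (hT : ∀ T' : TopologicalSpace (X →₀ ℤ), @IsTopologicalAddGroup (X →₀ ℤ) T' _ →
        @Continuous _ _ _ T' (ι X) → T ≤ T') {E : ℕ → Set (Y × Y)}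
    (hE : ∀ i, E i ∈ 𝓝ˢ (diagonal Y)) : USet X E ∈ @nhds _ T (0 : X →₀ ℤ) := by
  have h1 : T ≤ (basis X).topology := hT _ (basis X).isTopologicalAddGroup continuous_ι
  have h2 : USet X E ∈ @nhds _ (basis X).topology (0 : X →₀ ℤ) :=
    (basis X).mem_nhds_zero ⟨E, hE, rfl⟩
  exact nhds_mono h1 h2

end PB

theorem sB : S_B := by
  classical
  intro Y _ _ _ X hX hext T hTg hTf hTι
  letI := T
  haveI := hTg
  rcases isEmpty_or_nonempty X with hem | hne
  · intro f _
    have : Subsingleton (X →₀ ℤ) := ⟨fun a b => by ext x; exact (hem.false x).elim⟩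
    exact continuous_of_const fun a b => by rw [Subsingleton.elim a b]
  intro f hf
  rw [continuous_iff_continuousAt]
  intro g0
  -- the translated function
  set F : (X →₀ ℤ) → ℝ := fun g => f (g + g0) with hF
  have hFk : KCont F := by
    intro K hK
    have h2 : IsCompact ((fun y => y + g0) '' K) := hK.image (by fun_prop)
    exact (hf _ h2).comp (by fun_prop) (mapsTo_image _ _)
  suffices h : ContinuousAt F 0 by
    have h3 : f = F ∘ (fun y => y - g0) := by
      funext y; simp [hF]
    rw [h3]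
    refine ContinuousAt.comp ?_ (by fun_prop)
    simpa using h
  -- the extended functions
  have hG : ∀ n : ℕ, ∃ G : (ℕ → Y × Y) → ℝ, Continuous G ∧ ∀ x y : ℕ → X,
      G (fun i => ((x i : Y), (y i : Y))) = F (∑ i ∈ Finset.range n, (ι X (x i) - ι X (y i))) := by
    intro n
    let Φ : (Fin (2 * n) → X) → (X →₀ ℤ) := fun q =>
      ∑ i : Fin n, (ι X (q ⟨2 * i, by omega⟩) - ι X (q ⟨2 * i + 1, by omega⟩))
    have hΦ : Continuous Φ := by
      refine continuous_finsetSum _ fun i _ => ?_
      have c1 : Continuous fun q : Fin (2 * n) → X => ι X (q ⟨2 * i, by omega⟩) :=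
        hTι.comp (continuous_apply (⟨2 * i, by omega⟩ : Fin (2 * n)))
      have c2 : Continuous fun q : Fin (2 * n) → X => ι X (q ⟨2 * i + 1, by omega⟩) :=
        hTι.comp (continuous_apply (⟨2 * i + 1, by omega⟩ : Fin (2 * n)))
      exact c1.sub c2
    obtain ⟨G, hGc, hG⟩ := hext (2 * n) (fun q => F (Φ q)) (by
      intro K hK
      exact (hFk _ (hK.image hΦ)).comp hΦ.continuousOn (mapsTo_image _ _))
    refine ⟨fun p => G fun k => if (k : ℕ) % 2 = 0 then (p (k / 2)).1 else (p (k / 2)).2, ?_, ?_⟩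
    · refine hGc.comp (continuous_pi fun k => ?_)
      split_ifs
      · exact continuous_fst.comp (continuous_apply _)
      · exact continuous_snd.comp (continuous_apply _)
    · intro x y
      have h1 := hG fun k => if (k : ℕ) % 2 = 0 then x (k / 2) else y (k / 2)
      have h2 : (fun k : Fin (2 * n) => (((if (k : ℕ) % 2 = 0 then x (k / 2) else y (k / 2)) : X) : Y))
          = fun k : Fin (2 * n) => if (k : ℕ) % 2 = 0 then ((x (k / 2) : X) : Y)
            else ((y (k / 2) : X) : Y) := by
        funext k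
        split_ifs <;> rfl
      rw [h2] at h1
      simp only
      rw [← h1, Finset.sum_range]
      congr 1
      refine Finset.sum_congr rfl fun i _ => ?_
      have e1 : 2 * (i : ℕ) % 2 = 0 := by omega
      have e2 : 2 * (i : ℕ) / 2 = i := by omega
      have e3 : ¬ (2 * (i : ℕ) + 1) % 2 = 0 := by omega
      have e4 : (2 * (i : ℕ) + 1) / 2 = i := by omega
      simp only [e1, e2, e3, e4, if_true, if_false]
  choose G hGc hG using hG
  -- dense set
  have hdense : Dense {u : ℕ → Y × Y | ∀ i, u i ∈ X ×ˢ X} := by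
    have h1 : {u : ℕ → Y × Y | ∀ i, u i ∈ X ×ˢ X} = Set.pi univ fun _ : ℕ => X ×ˢ X := by
      ext u; simp [Set.mem_pi]
    rw [h1]
    exact dense_pi _ fun i _ => hX.prod hX
  have hstepeq : ∀ n (p : ℕ → Y × Y), p n ∈ diagonal Y → G (n + 1) p = G n p := by
    intro n p hp
    let up : (ℕ → Y × Y) → (ℕ → Y × Y) := fun u => Function.update u n ((u n).1, (u n).1)
    have hup : Continuous up := by
      refine continuous_pi fun i => ?_
      by_cases hi : i = n
      · subst hi
        simp only [up, Function.update_self]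
        exact (continuous_fst.comp (continuous_apply _)).prodMk
          (continuous_fst.comp (continuous_apply _))
      · simp only [up, Function.update_of_ne hi]
        exact continuous_apply _
    have h1 : (fun u => G (n + 1) (up u)) = fun u => G n (up u) := by
      refine Continuous.ext_on hdense ((hGc _).comp hup) ((hGc _).comp hup) ?_
      intro u hu
      let x : ℕ → X := fun i => ⟨(u i).1, (hu i).1⟩
      let y : ℕ → X := fun i => if i = n then ⟨(u i).1, (hu i).1⟩ else ⟨(u i).2, (hu i).2⟩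
      have h2 : up u = fun i => ((x i : Y), (y i : Y)) := by
        funext i
        by_cases hi : i = n
        · subst hi
          simp [up, x, y]
        · simp [up, x, y, Function.update_of_ne hi, hi]
      simp only
      rw [h2, hG, hG, Finset.sum_range_succ]
      have h3 : x n = y n := by simp [x, y]
      rw [h3, sub_self, add_zero]
    have h4 : up p = p := by
      funext i
      by_cases hi : i = n
      · subst hi
        simp only [up, Function.update_self]
        rw [mem_diagonal_iff] at hp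
        exact Prod.ext rfl hp
      · simp only [up, Function.update_of_ne hi]
    have h5 := congrFun h1 p
    simp only [h4] at h5
    exact h5
  have hG0 : ∀ p, G 0 p = F 0 := by
    intro p
    have h1 : G 0 = fun _ => F 0 := by
      refine Continuous.ext_on hdense (hGc _) continuous_const ?_
      intro u hu
      have h2 : u = fun i => (((⟨(u i).1, (hu i).1⟩ : X) : Y), ((⟨(u i).2, (hu i).2⟩ : X) : Y)) := by
        funext i
        rfl
      rw [h2, hG]
      simp
    rw [h1]
  rw [Metric.continuousAt_iff']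
  intro ε hε
  -- the inductive step
  have step : ∀ (n : ℕ) (C : Set (ℕ → Y × Y)), IsClosed C → (∀ p ∈ C, dist (G n p) (F 0) < ε) →
      ∃ E : Set (Y × Y), IsClosed E ∧ E ∈ 𝓝ˢ (diagonal Y) ∧
        ∀ p ∈ C, p n ∈ E → dist (G (n + 1) p) (F 0) < ε := by
    intro n C hC hCp
    let B : Set (ℕ → Y × Y) := C ∩ {p | ε ≤ dist (G (n + 1) p) (F 0)}
    have hBc : IsCompact B :=
      (hC.inter (isClosed_le continuous_const ((hGc _).dist continuous_const))).isCompact
    have hBi : IsCompact ((fun p : ℕ → Y × Y => p n) '' B) := hBc.image (continuous_apply _)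
    have hdis : diagonal Y ⊆ ((fun p : ℕ → Y × Y => p n) '' B)ᶜ := by
      rintro q hq ⟨p, ⟨hp1, hp2⟩, hpq⟩
      simp only at hpq
      rw [← hpq] at hq
      rw [Set.mem_ofPred_eq, hstepeq n p hq] at hp2
      exact absurd (hCp p hp1) (not_lt.2 hp2)
    obtain ⟨V, hV1, hV2, hV3⟩ := normal_exists_closure_subset isClosed_diagonal
      hBi.isClosed.isOpen_compl hdis
    refine ⟨closure V, isClosed_closure, ?_, ?_⟩
    · exact Filter.mem_of_superset (hV1.mem_nhdsSet.2 hV2) subset_closure
    · intro p hp hpn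
      by_contra hcon
      exact hV3 hpn ⟨p, ⟨hp, not_lt.1 hcon⟩, rfl⟩
  choose! E hE1 hE2 hE3 using step
  let C : ℕ → Set (ℕ → Y × Y) := fun n => Nat.rec univ (fun n C => C ∩ {p | p n ∈ E n C}) n
  have hC0 : C 0 = univ := rfl
  have hCs : ∀ n, C (n + 1) = C n ∩ {p | p n ∈ E n (C n)} := fun n => rfl
  have hCprop : ∀ n, IsClosed (C n) ∧ ∀ p ∈ C n, dist (G n p) (F 0) < ε := by
    intro n
    induction n with
    | zero =>
      refine ⟨isClosed_univ, fun p _ => ?_⟩
      rw [hG0, dist_self]
      exact hε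
    | succ n ih =>
      refine ⟨?_, ?_⟩
      · rw [hCs]
        exact ih.1.inter ((hE1 n (C n) ih.1 ih.2).preimage (continuous_apply n))
      · intro p hp
        rw [hCs] at hp
        exact hE3 n (C n) ih.1 ih.2 p hp.1 hp.2
  have hCmem : ∀ (n : ℕ) (p : ℕ → Y × Y), (∀ i, i < n → p i ∈ E i (C i)) → p ∈ C n := by
    intro n
    induction n with
    | zero => intro p _; trivial
    | succ n ih =>
      intro p hp
      rw [hCs]
      exact ⟨ih p fun i hi => hp i (by omega), hp n (by omega)⟩
  have hU : PB.USet X (fun i => E i (C i)) ∈ 𝓝 (0 : X →₀ ℤ) :=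
    PB.USet_mem_nhds T hTf fun i => hE2 i (C i) (hCprop i).1 (hCprop i).2
  filter_upwards [hU] with g hg
  obtain ⟨s, x, y, hxy, rfl⟩ := hg
  obtain ⟨n, hn⟩ : ∃ n, s ⊆ Finset.range n := s.exists_nat_subset_range
  let y' : ℕ → X := fun i => if i ∈ s then y i else x i
  have h1 : ∑ i ∈ s, (ι X (x i) - ι X (y i)) =
      ∑ i ∈ Finset.range n, (ι X (x i) - ι X (y' i)) := by
    rw [← Finset.sum_subset hn (f := fun i => ι X (x i) - ι X (y' i))]
    · refine Finset.sum_congr rfl fun i hi => ?_
      simp [y', hi]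
    · intro i _ hi
      simp [y', hi]
  rw [h1, ← hG n x y']
  apply (hCprop n).2
  apply hCmem
  intro i _
  by_cases hi : i ∈ s
  · simp only [y', hi, if_true]
    exact hxy i hi
  · simp only [y', hi, if_false]
    have h2 := hE2 i (C i) (hCprop i).1 (hCprop i).2
    exact subset_of_mem_nhdsSet h2 rfl

end Pool.Agent.P8H79.KR
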