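import Pool.Agent.P8H79.KR.PE
import Pool.Agent.P8H79.KR.PB
import Pool.Agent.P8H52.KR.A
import Pool.Agent.P8H52.KR.D
import Pool.Agent.P8H89.KR.PF

set_option autoImplicit false

/-! Assembly of PROJECT KR. -/

namespace Pool.Agent.P8H79.KR

open Topology Set Filter

lemma pt_inj : Function.Injective pt := by
  intro i j h
  have h1 := congrFun h i
  unfold pt at h1
  by_contra hij
  simp [hij] at h1

/-- the points of the sequence -/
noncomputable def zz (e : ℕ → W) (n : ℕ) : XS e := ⟨pt (e n), Or.inr ⟨n, rfl⟩⟩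

lemma zz_inj {e : ℕ → W} (he : Function.Injective e) : Function.Injective (zz e) := by
  intro n m h
  exact he (pt_inj (congrArg Subtype.val h))

lemma ext_eq_zero {X : Type} {z : ℕ → X} {h : X → ℝ} (hz : ∀ n, h (z n) = 0) {g : X →₀ ℤ}
    (hg : g ∈ H z) : ext h g = 0 := by
  unfold ext Finsupp.sum
  refine Finset.sum_eq_zero fun x hx => ?_
  by_cases hxr : x ∈ range z
  · obtain ⟨n, rfl⟩ := hxr
    simp only [hz, mul_zero]
  · exact absurd (hg.1 x hxr) (Finsupp.mem_support_iff.1 hx)

lemma ext_one {X : Type} (g : X →₀ ℤ) : ext (fun _ => 1) g = ((g.sum fun _ n => n : ℤ) : ℝ) := by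
  unfold ext Finsupp.sum
  push_cast
  simp

theorem isClosed_H (e : ℕ → W) (he : Function.Injective e) (T : TopologicalSpace (XS e →₀ ℤ))
    (hT : ∀ h : XS e → ℝ, Continuous h → @Continuous _ _ T _ (ext h)) (hF : S_F) :
    @IsClosed _ T (H (zz e) : Set (XS e →₀ ℤ)) := by
  classical
  letI := T
  obtain ⟨-, -, hsep, -⟩ := hF e he
  have h1 : (H (zz e) : Set (XS e →₀ ℤ)) =
      ⋂ h ∈ {h : XS e → ℝ | Continuous h ∧ ∀ g ∈ H (zz e), ext h g = 0}, {g | ext h g = 0} := by
    ext g
    simp only [Set.mem_iInter, SetLike.mem_coe]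
    constructor
    · intro hg h hh
      exact hh.2 g hg
    · intro hall
      by_contra hcon
      by_cases hsupp : ∀ x, x ∉ range (zz e) → g x = 0
      · have hsum : g.sum (fun _ n => n) ≠ 0 := fun h => hcon ⟨hsupp, h⟩
        have h2 := hall (fun _ => 1) ⟨continuous_const, fun g' hg' => by
          rw [ext_one, hg'.2]; simp⟩
        have h3 : ext (fun _ => 1) g = 0 := h2
        rw [ext_one] at h3
        exact hsum (by exact_mod_cast h3)
      · push Not at hsupp
        obtain ⟨x, hx, hgx⟩ := hsupp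
        obtain ⟨h, hhc, hx1, hF0, hz0⟩ := hsep x (g.support.erase x)
          (fun n hn => hx ⟨n, Subtype.ext hn.symm⟩) (Finset.notMem_erase x _)
        have h2 : ext h g = 0 := hall h ⟨hhc, fun g' hg' => ext_eq_zero (fun n => hz0 n) hg'⟩
        have h3 : ext h g = g x := by
          unfold ext Finsupp.sum
          rw [Finset.sum_eq_single x]
          · simp only [hx1, mul_one]
          · intro y hy hyx
            simp only [hF0 y (Finset.mem_erase.2 ⟨hyx, hy⟩), mul_zero]
          · intro hxs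
            exact absurd (Finsupp.mem_support_iff.2 hgx) hxs
        rw [h3] at h2
        exact hgx (by exact_mod_cast h2)
  rw [h1]
  exact isClosed_biInter fun h hh => isClosed_eq (hT h hh.1) continuous_const

/-- the theorem, given package C -/
theorem main (hC1 : S_C1) (hC2 : S_C2) :
    ∃ (X : Type) (_ : TopologicalSpace X) (T : TopologicalSpace (X →₀ ℤ)),
      T35Space X ∧ IsMarkov X T ∧ @T35Space (X →₀ ℤ) T ∧ @IsKR (X →₀ ℤ) T ∧
      ∃ H : AddSubgroup (X →₀ ℤ), @IsClosed _ T (H : Set (X →₀ ℤ)) ∧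
        ¬ @IsKR H (@instTopologicalSpaceSubtype _ _ T) := by
  have hW : Infinite W := by
    by_contra h
    rw [not_infinite_iff_finite] at h
    exact Pool.Agent.P8H89.KR.not_countable_W (Set.to_countable _)
  let e : ℕ → W := Infinite.natEmbedding W
  have he : Function.Injective e := (Infinite.natEmbedding W).injective
  have hF := Pool.Agent.P8H89.KR.sF
  obtain ⟨hdense, hsummable, hsep, htend⟩ := hF e he
  have h35 : T35Space (XS e) := inferInstance
  obtain ⟨T, hT⟩ := hC1 (XS e)
  obtain ⟨hι, hfin, hext, hT35⟩ := hC2 (XS e) T hT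
  have hE : Extends Y (XS e) := fun n f hf => Pool.Agent.P8H52.KR.sA e n f hf
  refine ⟨XS e, inferInstance, T, h35, hT, hT35,
    sB Y (XS e) hdense hE T hT.group hfin hι, H (zz e), isClosed_H e he T hext hF, ?_⟩
  refine sE (XS e) T hT.group (zz e) (zz_inj he) ?_ ?_
  · intro c hc
    obtain ⟨h, hh1, hh2⟩ := hsummable c hc
    exact ⟨h, hh2, hext h hh1⟩
  · exact Pool.Agent.P8H52.KR.sD Y (XS e) hdense hE T hT.group hι (zz e) (fun _ => true) htend

end Pool.Agent.P8H79.KR
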