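import Mathlib

set_option autoImplicit false

/-! Definitions for the problem on closed subgroups of free Abelian topological groups that are
`k_ℝ`-spaces. -/

namespace Pool.Agent.P8H79.KR

open Topology Set Filter

/-- `k`-continuity: the restriction to every compact set is continuous -/
def KCont {X : Type} [TopologicalSpace X] (f : X → ℝ) : Prop :=
  ∀ K : Set X, IsCompact K → ContinuousOn f K

/-- the `k_ℝ`-property: every real function with continuous restrictions to all compact sets
is continuous -/
def IsKR (X : Type) [TopologicalSpace X] : Prop :=
  ∀ f : X → ℝ, (∀ K : Set X, IsCompact K → ContinuousOn f K) → Continuous f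

/-- the canonical basis of the free Abelian group on the set `X` -/
noncomputable def ι (X : Type) (x : X) : X →₀ ℤ := Finsupp.single x 1

/-- `T` is the topology of the free Abelian topological group `A(X)` in the sense of Markov:
it is the finest group topology on the free Abelian group on the set `X` that induces the
original topology on `X`. -/
structure IsMarkov (X : Type) [TX : TopologicalSpace X] (T : TopologicalSpace (X →₀ ℤ)) :
    Prop where
  group : @IsTopologicalAddGroup (X →₀ ℤ) T _
  induces : TX = TopologicalSpace.induced (ι X) T
  finest : ∀ T' : TopologicalSpace (X →₀ ℤ), @IsTopologicalAddGroup (X →₀ ℤ) T' _ →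
    TX = TopologicalSpace.induced (ι X) T' → T ≤ T'

/-- the homomorphism to the reals that extends a function on `X` -/
noncomputable def ext {X : Type} (h : X → ℝ) (g : X →₀ ℤ) : ℝ := g.sum fun x n => (n : ℝ) * h x

/-- the index set `ω₁` -/
abbrev W : Type := (Cardinal.aleph 1).ord.ToType

/-- the compact space: the Cantor cube of weight `ω₁` -/
abbrev Y : Type := W → Bool

open Classical in
/-- the point all of whose coordinates except `i` are `true` -/
noncomputable def pt (i : W) : Y := fun j => decide (j ≠ i)

open Classical in
/-- the dense subset of the cube: the Sigma-product and the points `pt (e n)` -/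
def XS (e : ℕ → W) : Set Y := {y | {i | y i = true}.Countable ∨ ∃ n, y = pt (e n)}

/-- the closed subgroup: combinations of the points `z n` with coefficient sum zero -/
noncomputable def H {X : Type} (z : ℕ → X) : AddSubgroup (X →₀ ℤ) where
  carrier := {g | (∀ x, x ∉ range z → g x = 0) ∧ g.sum (fun _ n => n) = 0}
  zero_mem' := ⟨fun _ _ => rfl, Finsupp.sum_zero_index⟩
  add_mem' := by
    rintro a b ⟨ha, ha'⟩ ⟨hb, hb'⟩
    refine ⟨fun x hx => by rw [Finsupp.add_apply, ha x hx, hb x hx, add_zero], ?_⟩
    rw [Finsupp.sum_add_index' (fun _ => rfl) (fun _ _ _ => rfl), ha', hb', add_zero]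
  neg_mem' := by
    rintro a ⟨ha, ha'⟩
    refine ⟨fun x hx => by rw [Finsupp.neg_apply, ha x hx, neg_zero], ?_⟩
    rw [Finsupp.sum_neg_index (fun _ => rfl)]
    have : (a.sum fun _ b => -b) = -(a.sum fun _ b => b) := by
      simp [Finsupp.sum, Finset.sum_neg_distrib]
    rw [this, ha', neg_zero]

end Pool.Agent.P8H79.KR
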