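import Pool.Agent.P8H79.KR.Stm

set_option autoImplicit false

/-! PACKAGE E: the closed subgroup is not a `k_ℝ`-space. -/

namespace Pool.Agent.P8H79.KR

open Topology Set Filter

namespace PE

variable {X : Type} {z : ℕ → X}

/-- coordinates -/
noncomputable def co (g : H z) (i : ℕ) : ℤ := (g : X →₀ ℤ) (z i)

/-- coordinates are eventually zero -/
lemma exists_bound (hz : Function.Injective z) (g : H z) : ∃ M, ∀ i, M ≤ i → co g i = 0 := by
  classical
  have hfin : {i | co g i ≠ 0}.Finite := by
    have : {i | co g i ≠ 0} = z ⁻¹' ((g : X →₀ ℤ).support : Set X) := by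
      ext i
      simp [co]
    rw [this]
    exact (Finset.finite_toSet _).preimage hz.injOn
  obtain ⟨M, hM⟩ := hfin.bddAbove
  refine ⟨M + 1, fun i hi => ?_⟩
  by_contra h
  have := hM h
  omega

/-- sums over the coordinates -/
lemma sum_eq {A : Type} [AddCommMonoid A] (hz : Function.Injective z) (g : H z) {M : ℕ}
    (hM : ∀ i, M ≤ i → co g i = 0) (φ : X → ℤ → A) (hφ : ∀ x, φ x 0 = 0) :
    (g : X →₀ ℤ).sum φ = ∑ i ∈ Finset.range M, φ (z i) (co g i) := by
  classical
  have hsub : (g : X →₀ ℤ).support ⊆ (Finset.range M).image z := by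
    intro x hx
    rw [Finsupp.mem_support_iff] at hx
    have hxr : x ∈ range z := by
      by_contra h
      exact hx (g.2.1 x h)
    obtain ⟨i, rfl⟩ := hxr
    rw [Finset.mem_image]
    refine ⟨i, ?_, rfl⟩
    rw [Finset.mem_range]
    by_contra h
    exact hx (hM i (not_lt.1 h))
  rw [Finsupp.sum_of_support_subset _ hsub _ (fun x _ => hφ x)]
  rw [Finset.sum_image (fun a _ b _ h => hz h)]
  rfl

lemma ext_eq (hz : Function.Injective z) (g : H z) {M : ℕ} (hM : ∀ i, M ≤ i → co g i = 0)
    (h : X → ℝ) : ext h (g : X →₀ ℤ) = ∑ i ∈ Finset.range M, (co g i : ℝ) * h (z i) := by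
  unfold ext
  rw [sum_eq hz g hM (fun x n => (n : ℝ) * h x) (fun x => by simp)]

/-- the coordinates of the special elements -/
def w (n a b i : ℕ) : ℤ := if i = n then 1 else if i = a then (n : ℤ) else
  if i = b then -((n : ℤ) + 1) else 0

/-- the open set -/
def O (z : ℕ → X) : Set (H z) :=
  {g | ∃ n a b : ℕ, 1 ≤ n ∧ n < a ∧ a < b ∧ ∀ i, i ≤ b → co g i = w n a b i}

/-- the special elements -/
noncomputable def we (z : ℕ → X) (n a b : ℕ) : X →₀ ℤ :=
  (ι X (z n) - ι X (z b)) + n • (ι X (z a) - ι X (z b))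

lemma ι_apply (hz : Function.Injective z) (n i : ℕ) : ι X (z n) (z i) = if i = n then 1 else 0 := by
  classical
  unfold ι
  rw [Finsupp.single_apply]
  by_cases h : i = n
  · simp [h]
  · rw [if_neg h, if_neg]
    intro h'
    exact h (hz h').symm

lemma ι_mem (n m : ℕ) : ι X (z n) - ι X (z m) ∈ H z := by
  classical
  constructor
  · intro x hx
    have h1 : ∀ k, ι X (z k) x = 0 := by
      intro k
      unfold ι
      rw [Finsupp.single_apply, if_neg]
      intro h
      exact hx ⟨k, h⟩
    rw [Finsupp.sub_apply, h1, h1, sub_zero]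
  · have h1 : (ι X (z n) - ι X (z m)) = ι X (z n) + Finsupp.single (z m) (-1) := by
      unfold ι
      rw [sub_eq_add_neg, Finsupp.single_neg]
    rw [h1, Finsupp.sum_add_index' (fun _ => rfl) (fun _ _ _ => rfl)]
    unfold ι
    rw [Finsupp.sum_single_index rfl, Finsupp.sum_single_index rfl]
    norm_num

lemma we_mem (n a b : ℕ) : we z n a b ∈ H z :=
  (H z).add_mem (ι_mem n b) ((H z).nsmul_mem (ι_mem a b) n)

lemma co_we (hz : Function.Injective z) {n a b : ℕ} (h1 : n < a) (h2 : a < b) (i : ℕ) :
    co (⟨we z n a b, we_mem n a b⟩ : H z) i = w n a b i := by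
  unfold co we w
  simp only [Finsupp.add_apply, Finsupp.sub_apply, Finsupp.smul_apply, ι_apply hz]
  by_cases hn : i = n
  · subst hn
    have h3 : ¬ i = b := by omega
    have h4 : ¬ i = a := by omega
    simp [h3, h4]
  · by_cases ha : i = a
    · subst ha
      have h3 : ¬ i = b := by omega
      simp [h3, hn]
    · by_cases hb : i = b
      · subst hb
        simp [hn, ha]
      · simp [hn, ha, hb]

section top

set_option linter.unusedSectionVars false

variable [T : TopologicalSpace (X →₀ ℤ)] [IsTopologicalAddGroup (X →₀ ℤ)]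

lemma continuous_co (hz : Function.Injective z)
    (hc : ∀ c : ℕ → ℝ, Summable (fun n => |c n|) → ∃ h : X → ℝ, (∀ n, h (z n) = c n) ∧
        Continuous (ext h)) (i : ℕ) : Continuous fun g : H z => co g i := by
  classical
  obtain ⟨h, hh, hcont⟩ := hc (fun n => if n = i then 1 else 0) (by
    refine summable_of_ne_finset_zero (s := {i}) fun b hb => ?_
    rw [Finset.mem_singleton] at hb
    simp [hb])
  have h1 : ∀ g : H z, ext h (g : X →₀ ℤ) = (co g i : ℝ) := by
    intro g
    obtain ⟨M, hM⟩ := exists_bound hz g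
    have hM' : ∀ j, M + i + 1 ≤ j → co g j = 0 := fun j hj => hM j (by omega)
    rw [ext_eq hz g hM', Finset.sum_eq_single i]
    · rw [hh]; simp
    · intro j _ hj
      rw [hh]; simp [hj]
    · intro hi
      exfalso
      apply hi
      rw [Finset.mem_range]
      omega
  have h2 : Continuous fun g : H z => ((co g i : ℤ) : ℝ) := by
    have h3 : (fun g : H z => ((co g i : ℤ) : ℝ)) = fun g : H z => ext h (g : X →₀ ℤ) := by
      funext g
      rw [h1]
    rw [h3]
    exact hcont.comp continuous_subtype_val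
  exact Int.isClosedEmbedding_coe_real.isEmbedding.continuous_iff.2 h2

lemma isOpen_eq (hz : Function.Injective z)
    (hc : ∀ c : ℕ → ℝ, Summable (fun n => |c n|) → ∃ h : X → ℝ, (∀ n, h (z n) = c n) ∧
        Continuous (ext h)) (N : ℕ) (v : ℕ → ℤ) :
    IsOpen {g : H z | ∀ i, i ≤ N → co g i = v i} := by
  have h1 : {g : H z | ∀ i, i ≤ N → co g i = v i} =
      ⋂ i ∈ Finset.range (N + 1), (fun g : H z => co g i) ⁻¹' {v i} := by
    ext g
    simp [Nat.lt_succ_iff]
  rw [h1]
  exact isOpen_biInter_finset fun i _ => (isOpen_discrete _).preimage (continuous_co hz hc i)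

lemma isOpen_O (hz : Function.Injective z)
    (hc : ∀ c : ℕ → ℝ, Summable (fun n => |c n|) → ∃ h : X → ℝ, (∀ n, h (z n) = c n) ∧
        Continuous (ext h)) : IsOpen (O z) := by
  rw [isOpen_iff_mem_nhds]
  rintro g ⟨n, a, b, h1, h2, h3, h4⟩
  refine Filter.mem_of_superset ((isOpen_eq hz hc b (w n a b)).mem_nhds h4) ?_
  intro g' hg'
  exact ⟨n, a, b, h1, h2, h3, hg'⟩

lemma zero_notMem_O : (0 : H z) ∉ O z := by
  rintro ⟨n, a, b, h1, h2, h3, h4⟩
  have := h4 n (by omega)
  simp [w, co] at this

/-- zero is in the closure of the open set -/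
lemma exists_mem_O (hz : Function.Injective z)
    (hC : ∀ U ∈ 𝓝 (0 : X →₀ ℤ), ∃ N : ℕ, ∀ n m : ℕ, N ≤ n → N ≤ m →
        ι X (z n) - ι X (z m) ∈ U) (U : Set (H z)) (hU : U ∈ 𝓝 (0 : H z)) :
    ∃ g ∈ U, g ∈ O z := by
  rw [nhds_subtype_eq_comap, mem_comap] at hU
  obtain ⟨V, hV, hVU⟩ := hU
  rw [ZeroMemClass.coe_zero] at hV
  obtain ⟨V', hV', hadd⟩ := exists_nhds_zero_half hV
  obtain ⟨N, hN⟩ := hC V' hV'
  set n := N + 1 with hn
  have h1 : {g : X →₀ ℤ | n • g ∈ V'} ∈ 𝓝 (0 : X →₀ ℤ) := by
    have h2 : Continuous fun g : X →₀ ℤ => n • g := continuous_nsmul n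
    apply h2.continuousAt.preimage_mem_nhds
    rw [smul_zero]
    exact hV'
  obtain ⟨N', hN'⟩ := hC _ h1
  set a := n + N' + 1 with ha
  set b := a + 1 with hb
  refine ⟨⟨we z n a b, we_mem n a b⟩, ?_, ⟨n, a, b, by omega, by omega, by omega, ?_⟩⟩
  · apply hVU
    exact hadd _ (hN n b (by omega) (by omega)) _ (hN' a b (by omega) (by omega))
  · intro i _
    exact co_we hz (by omega) (by omega) i

/-- elements with zero coordinates are zero for the extended homomorphisms -/
lemma ext_zero (hz : Function.Injective z) (g : H z) (h0 : ∀ i, co g i = 0) (h : X → ℝ) :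
    ext h (g : X →₀ ℤ) = 0 := by
  rw [ext_eq hz g (M := 0) (fun i _ => h0 i)]
  simp

/-- the main lemma: compact sets see the open set as a clopen set -/
lemma key (hz : Function.Injective z)
    (hc : ∀ c : ℕ → ℝ, Summable (fun n => |c n|) → ∃ h : X → ℝ, (∀ n, h (z n) = c n) ∧
        Continuous (ext h)) {K : Set (H z)} (hK : IsCompact K) {g : H z}
    (hgO : g ∉ O z) : ∃ U ∈ 𝓝 g, ∀ g' ∈ U, g' ∈ K → g' ∉ O z := by
  classical
  by_contra hcon
  push Not at hcon
  have hchoose : ∀ N : ℕ, ∃ g' : H z, (∀ i, i ≤ N → co g' i = co g i) ∧ g' ∈ K ∧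
      ∃ n a b : ℕ, 1 ≤ n ∧ n < a ∧ a < b ∧ ∀ i, i ≤ b → co g' i = w n a b i := by
    intro N
    obtain ⟨g', h1, h2, h3⟩ := hcon _ ((isOpen_eq hz hc N (co g)).mem_nhds (fun i _ => rfl))
    exact ⟨g', h1, h2, h3⟩
  choose G hG hGK n a b hn hna hab hw using hchoose
  have hbN : ∀ N, N < b N := by
    intro N
    by_contra h
    push Not at h
    apply hgO
    refine ⟨n N, a N, b N, hn N, hna N, hab N, fun i hi => ?_⟩
    rw [← hG N i (hi.trans h)]
    exact hw N i hi
  have hgw : ∀ N i, i ≤ N → co g i = w (n N) (a N) (b N) i := by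
    intro N i hi
    rw [← hG N i hi]
    exact hw N i (hi.trans (hbN N).le)
  obtain ⟨M, hM⟩ := exists_bound hz g
  have hnN : ∀ N, M ≤ N → N < n N := by
    intro N hMN
    by_contra h
    push Not at h
    have h1 : (g : X →₀ ℤ).sum (fun _ m => m) = ∑ i ∈ Finset.range (N + 1), co g i :=
      sum_eq hz g (fun i hi => hM i (by omega)) (fun _ m => m) (fun _ => rfl)
    rw [g.2.2] at h1
    have h2 : ∀ i ∈ Finset.range (N + 1), 0 ≤ co g i := by
      intro i hi
      rw [Finset.mem_range] at hi
      rw [hgw N i (by omega)]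
      have h3 : ¬ i = b N := by have := hbN N; omega
      unfold w
      split_ifs
      · norm_num
      · positivity
      · exact le_refl _
    have h4 : co g (n N) ≤ ∑ i ∈ Finset.range (N + 1), co g i :=
      Finset.single_le_sum h2 (Finset.mem_range.2 (by omega))
    rw [← h1, hgw N (n N) h] at h4
    simp [w] at h4
  have hg0 : ∀ i, co g i = 0 := by
    intro i
    have h1 := hnN (M + i) (by omega)
    have h2 := hna (M + i)
    have h3 := hab (M + i)
    rw [hgw (M + i) i (by omega)]
    unfold w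
    rw [if_neg (by omega), if_neg (by omega), if_neg (by omega)]
  -- bounds of the supports
  have hB := fun N => exists_bound hz (G N)
  choose B hB using hB
  -- the subsequence
  let s : ℕ → ℕ := fun k => Nat.rec (M + 1)
    (fun k sk => 2 ^ (k + 1) + B sk + a sk + sk + 1) k
  have hs : ∀ k, s (k + 1) = 2 ^ (k + 1) + B (s k) + a (s k) + s k + 1 := fun k => rfl
  have hs0 : s 0 = M + 1 := rfl
  have hsge : ∀ k, B (s k) + a (s k) + s k + 1 ≤ s (k + 1) := by
    intro k
    rw [hs]
    have := Nat.two_pow_pos (k + 1)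
    omega
  have hsge2 : ∀ k, 2 ^ (k + 1) ≤ s (k + 1) := by
    intro k
    rw [hs]
    have : 0 ≤ B (s k) + a (s k) + s k + 1 := Nat.zero_le _
    linarith
  have hsM : ∀ k, M ≤ s k := by
    intro k
    induction k with
    | zero => rw [hs0]; omega
    | succ k ih => have := hsge k; omega
  have hs2 : ∀ k, 2 ^ k ≤ s k := by
    intro k
    cases k with
    | zero => rw [hs0]; simp
    | succ k => exact hsge2 k
  have hsmono : StrictMono s := strictMono_nat_of_lt_succ fun k => by have := hsge k; omega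
  have has : ∀ k, s k < a (s k) := fun k => (hnN _ (hsM k)).trans (hna _)
  have hlt : ∀ l k, l < k → a (s l) < s k ∧ B (s l) < s k := by
    intro l k hlk
    have h1 : s (l + 1) ≤ s k := hsmono.monotone hlk
    have h2 := hsge l
    constructor <;> omega
  have hinj : Function.Injective fun k => a (s k) := by
    intro k l hkl
    by_contra hne
    rcases lt_or_gt_of_ne hne with h | h
    · have h1 := (hlt k l h).1
      have h2 := has l
      simp only at hkl
      omega
    · have h1 := (hlt l k h).1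
      have h2 := has k
      simp only at hkl
      omega
  let c : ℕ → ℝ := Function.extend (fun k => a (s k)) (fun k => 1 / (n (s k) : ℝ)) 0
  have hcin : ∀ k, c (a (s k)) = 1 / (n (s k) : ℝ) := fun k => hinj.extend_apply _ _ k
  have hcout : ∀ i, i ∉ range (fun k => a (s k)) → c i = 0 := by
    intro i hi
    exact Function.extend_apply' _ _ _ hi
  have hsum : Summable fun i => |c i| := by
    rw [← hinj.summable_iff (f := fun i => |c i|) (fun i hi => by rw [hcout i hi, abs_zero])]
    refine Summable.of_nonneg_of_le (fun k => abs_nonneg _) (fun k => ?_)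
      (summable_geometric_of_lt_one (r := (1 / 2 : ℝ)) (by norm_num) (by norm_num))
    change |c (a (s k))| ≤ _
    rw [hcin, abs_of_nonneg (by positivity), one_div_pow]
    apply one_div_le_one_div_of_le (by positivity)
    have h1 : (2 : ℕ) ^ k ≤ n (s k) := (hs2 k).trans (hnN _ (hsM k)).le
    exact_mod_cast h1
  obtain ⟨h, hh, hcont⟩ := hc c hsum
  have hone : ∀ k, ext h (G (s k) : X →₀ ℤ) = 1 := by
    intro k
    have hnk := hnN _ (hsM k)
    have hak := hna (s k)
    have hbk := hab (s k)
    have hBk : ∀ i, B (s k) + a (s k) + 1 ≤ i → co (G (s k)) i = 0 := fun i hi =>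
      hB (s k) i (by omega)
    rw [ext_eq hz _ hBk, Finset.sum_eq_single (a (s k))]
    · rw [hw (s k) (a (s k)) hbk.le, hh, hcin]
      have h1 : w (n (s k)) (a (s k)) (b (s k)) (a (s k)) = n (s k) := by
        unfold w
        rw [if_neg (by omega), if_pos rfl]
      rw [h1]
      have h2 : (n (s k) : ℝ) ≠ 0 := by
        have := hn (s k)
        positivity
      push_cast
      field_simp
    · intro i _ hi
      rw [hh]
      by_cases hir : i ∈ range (fun k => a (s k))
      · obtain ⟨l, rfl⟩ := hir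
        simp only at hi ⊢
        rcases lt_trichotomy l k with hlk | hlk | hlk
        · have h1 := (hlt l k hlk).1
          rw [hw (s k) (a (s l)) (by omega)]
          unfold w
          rw [if_neg (by omega), if_neg (by omega), if_neg (by omega)]
          simp
        · rw [hlk] at hi
          exact absurd rfl hi
        · have h1 := (hlt k l hlk).2
          have h2 := has l
          rw [hB (s k) (a (s l)) (by omega)]
          simp
      · rw [hcout i hir, mul_zero]
    · intro hi
      exfalso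
      apply hi
      rw [Finset.mem_range]
      omega
  -- the limit
  obtain ⟨g', hg'K, hg'⟩ := hK.exists_mapClusterPt (u := fun k : ℕ => G (s k)) (f := atTop)
    (by
      rw [Filter.le_principal_iff, Filter.mem_map]
      exact Filter.mem_of_superset Filter.univ_mem (fun k _ => hGK (s k)))
  have hg'0 : ∀ i, co g' i = 0 := by
    intro i
    have h1 : {x : H z | co x i = co g' i} ∈ 𝓝 g' :=
      ((isOpen_discrete {co g' i}).preimage (continuous_co hz hc i)).mem_nhds rfl
    have h2 := hg'.frequently h1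
    have h3 : ∀ᶠ k in atTop, co (G (s k)) i = 0 := by
      refine eventually_atTop.2 ⟨i, fun k hk => ?_⟩
      have h4 : i ≤ s k := hk.trans (hsmono.le_apply)
      rw [hG (s k) i h4, hg0]
    obtain ⟨k, hk1, hk2⟩ := (h2.and_eventually h3).exists
    rw [← hk1, hk2]
  have h5 : {x : H z | ext h (x : X →₀ ℤ) < 1 / 2} ∈ 𝓝 g' := by
    have h6 : Continuous fun x : H z => ext h (x : X →₀ ℤ) := hcont.comp continuous_subtype_val
    apply (isOpen_Iio.preimage h6).mem_nhds
    change ext h (g' : X →₀ ℤ) < 1 / 2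
    rw [ext_zero hz g' hg'0]
    norm_num
  obtain ⟨k, hk⟩ := (hg'.frequently h5).exists
  have h7 : ext h (G (s k) : X →₀ ℤ) < 1 / 2 := hk
  rw [hone] at h7
  norm_num at h7

end top

end PE

open Classical in
theorem sE : S_E := by
  intro X T hT z hz hc hC
  letI := T
  haveI := hT
  intro hKR
  have hf : Continuous fun g : H z => if g ∈ PE.O z then (1 : ℝ) else 0 := by
    apply hKR
    intro K hK g hg
    by_cases hgO : g ∈ PE.O z
    · apply ContinuousAt.continuousWithinAt
      have h1 : (fun g : H z => if g ∈ PE.O z then (1 : ℝ) else 0) =ᶠ[𝓝 g] fun _ => 1 :=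
        Filter.mem_of_superset ((PE.isOpen_O hz hc).mem_nhds hgO) fun g' hg' => if_pos hg'
      exact (continuousAt_const).congr h1.symm
    · obtain ⟨U, hU, hU'⟩ := PE.key hz hc hK hgO
      have h1 : (fun g : H z => if g ∈ PE.O z then (1 : ℝ) else 0) =ᶠ[𝓝[K] g] fun _ => 0 := by
        filter_upwards [mem_nhdsWithin_of_mem_nhds hU, self_mem_nhdsWithin] with g' h1 h2
        exact if_neg (hU' g' h1 h2)
      exact (continuousWithinAt_const).congr_of_eventuallyEq h1 (if_neg hgO)
  have h1 : {g : H z | (if g ∈ PE.O z then (1 : ℝ) else 0) < 1 / 2} ∈ 𝓝 (0 : H z) := by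
    apply (isOpen_Iio.preimage hf).mem_nhds
    change (if (0 : H z) ∈ PE.O z then (1 : ℝ) else 0) < 1 / 2
    rw [if_neg PE.zero_notMem_O]
    norm_num
  obtain ⟨g, hg1, hg2⟩ := PE.exists_mem_O hz hC _ h1
  have h2 : (if g ∈ PE.O z then (1 : ℝ) else 0) < 1 / 2 := hg1
  rw [if_pos hg2] at h2
  norm_num at h2

end Pool.Agent.P8H79.KR
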