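import Pool.Agent.P8H79.KR.Defs

set_option autoImplicit false

/-! Statements of the packages of PROJECT KR (no proofs here). -/

namespace Pool.Agent.P8H79.KR

open Topology Set Filter

/-- PACKAGE A: `k`-continuous functions on finite powers of `XS e` are restrictions of
continuous functions on powers of the cube -/
def S_A : Prop :=
  ∀ (e : ℕ → W) (n : ℕ) (f : (Fin n → XS e) → ℝ), KCont f →
    ∃ G : (Fin n → Y) → ℝ, Continuous G ∧ ∀ x : Fin n → XS e, f x = G fun j => (x j : Y)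

/-- the conclusion of package A for a dense subset of a compact space -/
def Extends (Y : Type) [TopologicalSpace Y] (X : Set Y) : Prop :=
  ∀ (n : ℕ) (f : (Fin n → X) → ℝ), KCont f →
    ∃ G : (Fin n → Y) → ℝ, Continuous G ∧ ∀ x : Fin n → X, f x = G fun j => (x j : Y)

/-- PACKAGE B: the free Abelian topological group is a `k_ℝ`-space -/
def S_B : Prop :=
  ∀ (Y : Type) [TopologicalSpace Y] [CompactSpace Y] [T2Space Y] (X : Set Y), Dense X →
    Extends Y X → ∀ T : TopologicalSpace (X →₀ ℤ),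
      @IsTopologicalAddGroup (X →₀ ℤ) T _ →
      (∀ T' : TopologicalSpace (X →₀ ℤ), @IsTopologicalAddGroup (X →₀ ℤ) T' _ →
        @Continuous _ _ _ T' (ι X) → T ≤ T') →
      @Continuous _ _ _ T (ι X) →
      @IsKR (X →₀ ℤ) T

/-- PACKAGE C1: the Markov topology exists -/
def S_C1 : Prop :=
  ∀ (X : Type) [TopologicalSpace X] [T35Space X], ∃ T : TopologicalSpace (X →₀ ℤ), IsMarkov X T

/-- PACKAGE C2: basic properties of the Markov topology -/
def S_C2 : Prop :=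
  ∀ (X : Type) [TopologicalSpace X] [T35Space X] (T : TopologicalSpace (X →₀ ℤ)), IsMarkov X T →
    @Continuous _ _ _ T (ι X) ∧
    (∀ T' : TopologicalSpace (X →₀ ℤ), @IsTopologicalAddGroup (X →₀ ℤ) T' _ →
        @Continuous _ _ _ T' (ι X) → T ≤ T') ∧
    (∀ h : X → ℝ, Continuous h → @Continuous _ _ T _ (ext h)) ∧
    @T35Space (X →₀ ℤ) T

/-- PACKAGE D: Cauchy sequences -/
def S_D : Prop :=
  ∀ (Y : Type) [TopologicalSpace Y] [CompactSpace Y] [T2Space Y] (X : Set Y), Dense X →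
    Extends Y X → ∀ T : TopologicalSpace (X →₀ ℤ),
      @IsTopologicalAddGroup (X →₀ ℤ) T _ → @Continuous _ _ _ T (ι X) →
      ∀ (z : ℕ → X) (y : Y), Tendsto (fun n => (z n : Y)) atTop (𝓝 y) →
      ∀ U ∈ @nhds _ T (0 : X →₀ ℤ), ∃ N : ℕ, ∀ n m : ℕ, N ≤ n → N ≤ m →
        ι X (z n) - ι X (z m) ∈ U

/-- PACKAGE E: the subgroup is not a `k_ℝ`-space -/
def S_E : Prop :=
  ∀ (X : Type) (T : TopologicalSpace (X →₀ ℤ)),
      @IsTopologicalAddGroup (X →₀ ℤ) T _ →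
      ∀ (z : ℕ → X), Function.Injective z →
      (∀ c : ℕ → ℝ, Summable (fun n => |c n|) → ∃ h : X → ℝ, (∀ n, h (z n) = c n) ∧
        @Continuous _ _ T _ (ext h)) →
      (∀ U ∈ @nhds _ T (0 : X →₀ ℤ), ∃ N : ℕ, ∀ n m : ℕ, N ≤ n → N ≤ m →
        ι X (z n) - ι X (z m) ∈ U) →
      ¬ @IsKR (H z) (@instTopologicalSpaceSubtype _ _ T)

/-- PACKAGE F: the topology of `XS e` -/
def S_F : Prop :=
  ∀ e : ℕ → W, Function.Injective e →
    Dense (XS e) ∧
    (∀ c : ℕ → ℝ, Summable (fun n => |c n|) → ∃ h : XS e → ℝ, Continuous h ∧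
      ∀ n, h ⟨pt (e n), Or.inr ⟨n, rfl⟩⟩ = c n) ∧
    (∀ (x : XS e) (F : Finset (XS e)), (∀ n, (x : Y) ≠ pt (e n)) → x ∉ F →
      ∃ h : XS e → ℝ, Continuous h ∧ h x = 1 ∧ (∀ y ∈ F, h y = 0) ∧
        ∀ n, h ⟨pt (e n), Or.inr ⟨n, rfl⟩⟩ = 0) ∧
    Tendsto (fun n => pt (e n)) atTop (𝓝 (fun _ => true))

end Pool.Agent.P8H79.KR
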